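import Pool.Agent.Helper68.DS.Goals

set_option autoImplicit false

namespace Pool.Agent.Helper83.DS

open Pool.Agent.Helper68.DS

theorem lineOpen_inter (P : Type) [AddCommGroup P] [Module ℂ P] (U U' : Set P)
    (h : LineOpen U) (h' : LineOpen U') : LineOpen (U ∩ U') := by
  intro p hp q
  refine ((h p hp.1 q).union (h' p hp.2 q)).subset ?_
  intro t ht
  simp only [Set.mem_ofPred_eq, Set.mem_inter_iff, not_and_or] at ht
  exact ht

theorem lineOpen_inter_ne (P : Type) [AddCommGroup P] [Module ℂ P] (U U' : Set P)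
    (h : LineOpen U) (h' : LineOpen U') (hn : U.Nonempty) (hn' : U'.Nonempty) :
    (U ∩ U').Nonempty := by
  obtain ⟨p, hp⟩ := hn
  obtain ⟨p', hp'⟩ := hn'
  have h1 := h p hp (p' - p)
  have h2 := h' p' hp' (p' - p)
  have h3 := (h1.union (h2.image fun t => t + 1))
  obtain ⟨t, ht⟩ := h3.exists_notMem
  simp only [Set.mem_union, Set.mem_ofPred_eq, Set.mem_image, not_or, not_not, not_exists,
    not_and] at ht
  refine ⟨p + t • (p' - p), ht.1, ?_⟩
  by_contra hc
  refine ht.2 (t - 1) ?_ (by ring)
  intro hc2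
  apply hc
  have : p + t • (p' - p) = p' + (t - 1) • (p' - p) := by
    rw [sub_smul, one_smul]; abel
  rw [this]
  exact hc2

theorem lineOpen_all (P : Type) [AddCommGroup P] [Module ℂ P] (ι : Type) [Finite ι]
    (U : ι → Set P) (h : ∀ i, LineOpen (U i) ∧ (U i).Nonempty) :
    LineOpen (⋂ i, U i) ∧ (⋂ i, U i).Nonempty := by
  classical
  have := Fintype.ofFinite ι
  have key : ∀ s : Finset ι, LineOpen (⋂ i ∈ s, U i) ∧ (⋂ i ∈ s, U i).Nonempty := by
    intro s
    induction s using Finset.induction_on with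
    | empty =>
      refine ⟨?_, ?_⟩
      · intro p _ q
        simp
      · exact ⟨0, by simp⟩
    | insert a s ha ih =>
      rw [Finset.set_biInter_insert]
      exact ⟨lineOpen_inter P _ _ (h a).1 ih.1,
        lineOpen_inter_ne P _ _ (h a).1 ih.1 (h a).2 ih.2⟩
  have := key Finset.univ
  simpa using this

theorem LO (h1 : SC_stmt) (h2 : SCK_stmt) : LO_stmt where
  inter := lineOpen_inter
  inter_ne := lineOpen_inter_ne
  comap := by
    intro P Q _ _ _ _ L U hU p hp q
    refine (hU (L p) hp (L q)).subset ?_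
    intro t ht
    simp only [Set.mem_ofPred_eq, Set.mem_preimage, map_add, map_smul] at ht ⊢
    exact ht
  all := lineOpen_all
  rank := by
    intro P V _ _ _ _ H _ ι _ F hF r p hp q
    refine (h1 V H ι (fun a t => F a (p + t • q)) (fun a => hF a p q) 0).subset ?_
    intro t ht
    have e : p + (0 : ℂ) • q = p := by rw [zero_smul, add_zero]
    have key : ∀ p' : P, p' = p → r ≤ Module.finrank ℂ
        ↥(H ⊔ Submodule.span ℂ (Set.range fun a => F a p')) := by
      rintro _ rfl
      exact hp
    have ht' : ¬ r ≤ Module.finrank ℂ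
        ↥(H ⊔ Submodule.span ℂ (Set.range fun a => F a (p + t • q))) := ht
    exact lt_of_lt_of_le (not_le.mp ht') (key _ e)
  ker := by
    intro P V W _ _ _ _ _ _ _ T hT r p hp q
    refine (h2 V W (fun t => T (p + t • q)) (fun v => hT v p q) 0).subset ?_
    intro t ht
    have e : p + (0 : ℂ) • q = p := by rw [zero_smul, add_zero]
    have key : ∀ p' : P, p' = p → Module.finrank ℂ ↥(LinearMap.ker (T p')) ≤ r := by
      rintro _ rfl
      exact hp
    have ht' : ¬ Module.finrank ℂ ↥(LinearMap.ker (T (p + t • q))) ≤ r := ht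
    exact lt_of_le_of_lt (key _ e) (not_le.mp ht')

end Pool.Agent.Helper83.DS
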