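import Pool.Agent.Helper68.DS.Goals

set_option autoImplicit false

namespace Pool.Agent.Helper83.DS

open Pool.Agent.Helper68.DS MvPolynomial

theorem div_key (m : ℕ) (a : ℂ) (f : MvPolynomial (Fin 2) ℂ) (hf : f ∈ HS 2 m)
    (h : eval ![a, 1] f = 0) : ∃ g ∈ HS 2 (m - 1), f = (X 0 - C a * X 1) * g := by
  have hf' : f.IsHomogeneous m := (mem_homogeneousSubmodule m f).mp hf
  have hdeg : ∀ d ∈ f.support, d 0 + d 1 = m := by
    intro d hd
    have := hf' (mem_support_iff.mp hd)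
    rw [Finsupp.weight_apply, Finsupp.sum_fintype] at this
    · simpa [Fin.sum_univ_two] using this
    · intro i; simp
  have e1 : f = ∑ d ∈ f.support, C (coeff d f) * (X 0 ^ (d 0) * X 1 ^ (d 1)) := by
    conv_lhs => rw [f.as_sum]
    refine Finset.sum_congr rfl fun d _ => ?_
    rw [monomial_eq, Finsupp.prod_fintype]
    · rw [Fin.prod_univ_two]
    · intro i; simp
  have e2 : ∑ d ∈ f.support, coeff d f * a ^ (d 0) = 0 := by
    rw [← h, eval_eq']
    refine Finset.sum_congr rfl fun d _ => ?_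
    rw [Fin.prod_univ_two]
    simp
  have e3 : ∑ d ∈ f.support, C (coeff d f) * ((C a * X 1) ^ (d 0) * X 1 ^ (d 1)) =
      (0 : MvPolynomial (Fin 2) ℂ) := by
    have : ∀ d ∈ f.support, C (coeff d f) * ((C a * X 1) ^ (d 0) * X 1 ^ (d 1)) =
        C (coeff d f * a ^ (d 0)) * (X 1 ^ m : MvPolynomial (Fin 2) ℂ) := by
      intro d hd
      rw [← hdeg d hd, pow_add, map_mul, map_pow]
      ring
    rw [Finset.sum_congr rfl this, ← Finset.sum_mul, ← map_sum, e2, map_zero, zero_mul]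
  refine ⟨∑ d ∈ f.support, C (coeff d f) *
    ((∑ j ∈ Finset.range (d 0), X 0 ^ j * (C a * X 1) ^ (d 0 - 1 - j)) * X 1 ^ (d 1)), ?_, ?_⟩
  · refine Submodule.sum_mem _ fun d hd => ?_
    rw [Finset.sum_mul, Finset.mul_sum]
    refine Submodule.sum_mem _ fun j hj => ?_
    rw [mem_homogeneousSubmodule]
    have hj' := Finset.mem_range.mp hj
    have hd' := hdeg d hd
    have e : m - 1 = 0 + ((j + (d 0 - 1 - j) * (0 + 1)) + d 1) := by omega
    rw [e]
    refine (isHomogeneous_C _ _).mul ?_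
    refine IsHomogeneous.mul (IsHomogeneous.mul ?_ ?_) ?_
    · exact isHomogeneous_X_pow _ _
    · rw [mul_comm (d 0 - 1 - j)]
      exact ((isHomogeneous_C _ _).mul (isHomogeneous_X _ _)).pow _
    · exact isHomogeneous_X_pow _ _
  · rw [Finset.mul_sum]
    conv_lhs => rw [e1, ← sub_zero (∑ d ∈ f.support, C (coeff d f) * (X 0 ^ (d 0) * X 1 ^ (d 1))),
      ← e3, ← Finset.sum_sub_distrib]
    refine Finset.sum_congr rfl fun d _ => ?_
    have := geom_sum₂_mul (X 0 : MvPolynomial (Fin 2) ℂ) (C a * X 1) (d 0)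
    have h2 : (C (coeff d f) : MvPolynomial (Fin 2) ℂ) * (X 0 ^ (d 0) * X 1 ^ (d 1)) -
          C (coeff d f) * ((C a * X 1) ^ (d 0) * X 1 ^ (d 1))
        = C (coeff d f) * ((X 0 ^ (d 0) - (C a * X 1) ^ (d 0)) * X 1 ^ (d 1)) := by ring
    rw [h2, ← this]
    ring

theorem div_zero (g : MvPolynomial (Fin 2) ℂ) (hg : g ∈ HS 2 0) (a : ℂ)
    (h : eval ![a, 1] g = 0) : g = 0 := by
  have hg' : g.IsHomogeneous 0 := (mem_homogeneousSubmodule 0 g).mp hg
  have h1 : g.totalDegree = 0 := Nat.le_zero.mp hg'.totalDegree_le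
  rw [totalDegree_eq_zero_iff_eq_C] at h1
  rw [h1, eval_C] at h
  rw [h1, h, map_zero]

theorem div_ind (m : ℕ) (μ : ℕ → ℂ) (f : MvPolynomial (Fin 2) ℂ) (hf : f ∈ HS 2 m) (n : ℕ)
    (hμ : ∀ l l', 1 ≤ l → l ≤ n → 1 ≤ l' → l' ≤ n → μ l = μ l' → l = l')
    (h : ∀ l, 1 ≤ l → l < n + 1 → eval ![μ l, 1] f = 0) :
    (n ≤ m ∨ f = 0) ∧ ∃ g ∈ HS 2 (m - n),
      f = (∏ l ∈ Finset.Ico 1 (n + 1), (X 0 - C (μ l) * X 1)) * g := by
  induction n with
  | zero =>
    refine ⟨Or.inl (Nat.zero_le _), f, by simpa using hf, by simp⟩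
  | succ n ih =>
    obtain ⟨h1, g, hg, hfg⟩ := ih (fun l l' a b c d => hμ l l' a (by omega) c (by omega))
      (fun l a b => h l a (by omega))
    have hev : eval ![μ (n + 1), 1] g = 0 := by
      have h2 := h (n + 1) (by omega) (by omega)
      rw [hfg, map_mul, map_prod] at h2
      rcases mul_eq_zero.mp h2 with h3 | h3
      · exfalso
        obtain ⟨l, hl, h4⟩ := Finset.prod_eq_zero_iff.mp h3
        rw [Finset.mem_Ico] at hl
        simp only [map_sub, map_mul, eval_X, eval_C, Matrix.cons_val_zero, Matrix.cons_val_one,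
          mul_one, sub_eq_zero] at h4
        have := hμ (n + 1) l (by omega) (by omega) hl.1 (by omega) h4
        omega
      · exact h3
    obtain ⟨g', hg', hgg⟩ := div_key (m - n) (μ (n + 1)) g hg hev
    refine ⟨?_, g', ?_, ?_⟩
    · rcases h1 with h1 | h1
      · rcases h1.lt_or_eq with h5 | h5
        · exact Or.inl h5
        · right
          rw [← h5, Nat.sub_self] at hg
          rw [hfg, div_zero g hg _ hev, mul_zero]
      · exact Or.inr h1
    · rwa [Nat.sub_sub] at hg'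
    · rw [Finset.prod_Ico_succ_top (by omega : 1 ≤ n + 1), mul_assoc, ← hgg]
      exact hfg

theorem DIV : DIV_stmt := by
  intro i m μ hμ hi f hf h0 hne
  obtain ⟨n, rfl⟩ : ∃ n, i = n + 1 := ⟨i - 1, by omega⟩
  obtain ⟨h1, g, hg, hfg⟩ := div_ind m μ f hf n
    (fun l l' a b c d => hμ l l' a (by omega) c (by omega)) h0
  refine ⟨?_, g, ?_, ?_, ?_⟩
  · rcases h1 with h1 | h1
    · simpa using h1
    · rw [h1, map_zero] at hne
      exact absurd rfl hne
  · simpa using hg
  · exact hfg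
  · intro hc
    apply hne
    rw [hfg, map_mul, hc, mul_zero]

end Pool.Agent.Helper83.DS
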